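import Mathlib

namespace Pool.Agent.Results.MP_5b3c88_nt.SchurFib

open Finset Polynomial

/-! ### Definitions used in the statement -/

/-- `[n]_q = 1 + q + ... + q^{n-1}`, with `q = X`. -/
noncomputable def qNum (n : ℕ) : ℤ[X] := ∑ k ∈ range n, X ^ k

/-- The Gaussian binomial coefficient, as the quotient of `∏_{0<r≤n} [r]_q` by the monic
polynomial `∏_{0<s≤k} [s]_q * ∏_{0<t≤n-k} [t]_q` (the division is exact, see
`gauss_mul_eq`). -/
noncomputable def gauss (n k : ℕ) : ℤ[X] :=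
  (∏ r ∈ Icc 1 n, qNum r) /ₘ ((∏ s ∈ Icc 1 k, qNum s) * ∏ t ∈ Icc 1 (n - k), qNum t)

/-- Schur's q-Fibonacci polynomials: `F_0 = 0`, `F_1 = 1`, `F_{n+1} = F_n + q^n F_{n-1}`. -/
noncomputable def schurF : ℕ → ℤ[X]
  | 0 => 0
  | 1 => 1
  | n + 2 => schurF (n + 1) + X ^ (n + 1) * schurF n

/-- `S_{a,m}(q)`, a Laurent polynomial. -/
noncomputable def S (a m : ℕ) : LaurentPolynomial ℤ :=
  ∑ k ∈ range (5 ^ a * m), LaurentPolynomial.T (-(2 * (k : ℤ) * (k + 1))) *
    Polynomial.toLaurent (gauss (2 * k) k * schurF (2 * k + 1))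

/-- `A ≡ 0 (mod D)` for a Laurent polynomial `A`: for some `N ≥ 0`, `q^N A` lies in `ℤ[q]` and is
divisible by `D` there. -/
def CongrZero (A : LaurentPolynomial ℤ) (D : ℤ[X]) : Prop :=
  ∃ N : ℕ, ∃ P : ℤ[X], LaurentPolynomial.T (N : ℤ) * A = Polynomial.toLaurent P ∧ D ∣ P

/-! ### q-binomials in a commutative ring -/

/-- Gaussian binomials by the Pascal rule. -/
def gb {R : Type*} [CommRing R] (q : R) : ℕ → ℕ → R
  | _, 0 => 1
  | 0, _ + 1 => 0
  | n + 1, k + 1 => gb q n k + q ^ (k + 1) * gb q n (k + 1)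

section gb
variable {R : Type*} [CommRing R] (q : R)

lemma gb_zero_right (n : ℕ) : gb q n 0 = 1 := by cases n <;> rfl

lemma gb_succ_succ (n k : ℕ) :
    gb q (n + 1) (k + 1) = gb q n k + q ^ (k + 1) * gb q n (k + 1) := rfl

lemma gb_eq_zero {n k : ℕ} (h : n < k) : gb q n k = 0 := by
  induction n generalizing k with
  | zero => cases k with
    | zero => omega
    | succ k => rfl
  | succ n ih => cases k with
    | zero => omega
    | succ k => rw [gb_succ_succ, ih (by omega), ih (by omega)]; ring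

lemma gb_self (n : ℕ) : gb q n n = 1 := by
  induction n with
  | zero => rfl
  | succ n ih => rw [gb_succ_succ, ih, gb_eq_zero q (Nat.lt_succ_self n)]; ring

lemma gb_pascal2 (n k : ℕ) (h : k ≤ n) :
    gb q (n + 1) (k + 1) = gb q n (k + 1) + q ^ (n - k) * gb q n k := by
  induction n generalizing k with
  | zero =>
    obtain rfl : k = 0 := by omega
    simp [gb]
  | succ n ih =>
    rw [gb_succ_succ]
    cases k with
    | zero =>
      rw [gb_zero_right]
      rw [gb_succ_succ q n 0]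
      have h1 := ih 0 (Nat.zero_le _)
      rw [gb_succ_succ] at h1
      simp only [gb_zero_right, Nat.sub_zero, zero_add, pow_one, mul_one] at *
      rw [pow_succ]
      linear_combination q * h1
    | succ k =>
      have e1 := ih k (by omega)
      rcases Nat.lt_or_ge n (k + 1) with hlt | hge
      · obtain rfl : k = n := by omega
        rw [gb_eq_zero q (show k + 1 < k + 1 + 1 by omega)]
        simp [gb_self]
      · have e2 := ih (k + 1) hge
        have hsub1 : n + 1 - (k + 1) = n - k := by omega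
        have hp : q ^ (n - k) = q ^ (n - (k + 1)) * q := by
          rw [← pow_succ]; congr 1; omega
        rw [hsub1, gb_succ_succ q n (k + 1)]
        rw [gb_succ_succ] at e2
        have e3 := gb_succ_succ q n k
        rw [hp] at e1 ⊢
        have hq : q ^ (k + 1 + 1) = q ^ (k + 1) * q := pow_succ _ _
        rw [hq] at e2 ⊢
        linear_combination e1 - q ^ (n - (k + 1)) * q * e3 + q ^ (k + 1) * q * e2

/-- `(1 - q^{k+1}) [n, k+1] = (1 - q^{n-k}) [n, k]` -/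
lemma gb_absorb (n k : ℕ) (h : k ≤ n) :
    (1 - q ^ (k + 1)) * gb q n (k + 1) = (1 - q ^ (n - k)) * gb q n k := by
  have e1 := gb_succ_succ q n k
  have e2 := gb_pascal2 q n k h
  linear_combination e1 - e2

/-- `(1 - q^{k+1}) [n+1, k+1] = (1 - q^{n+1}) [n, k]` -/
lemma gb_absorb2 (n k : ℕ) (h : k ≤ n) :
    (1 - q ^ (k + 1)) * gb q (n + 1) (k + 1) = (1 - q ^ (n + 1)) * gb q n k := by
  have e1 := gb_succ_succ q n k
  have e2 := gb_absorb q n k h
  have e3 : q ^ (n + 1) = q ^ (k + 1) * q ^ (n - k) := by rw [← pow_add]; congr 1; omega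
  rw [e3]
  linear_combination (1 - q ^ (k + 1)) * e1 + q ^ (k + 1) * e2

lemma map_gb {S : Type*} [CommRing S] (f : R →+* S) (n k : ℕ) :
    f (gb q n k) = gb (f q) n k := by
  induction n generalizing k with
  | zero => cases k <;> simp [gb]
  | succ n ih => cases k with
    | zero => simp [gb]
    | succ k => rw [gb_succ_succ, gb_succ_succ, map_add, map_mul, map_pow, ih, ih]

/-- integer lower index -/
def qb (n : ℕ) (k : ℤ) : R := if 0 ≤ k then gb q n k.toNat else 0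

lemma qb_natCast (n k : ℕ) : qb q n (k : ℤ) = gb q n k := by simp [qb]

lemma qb_neg (n : ℕ) {k : ℤ} (h : k < 0) : qb q n k = 0 := by
  unfold qb; rw [if_neg (by omega)]

lemma qb_gt (n : ℕ) {k : ℤ} (h : (n : ℤ) < k) : qb q n k = 0 := by
  unfold qb; rw [if_pos (by omega), gb_eq_zero]; omega

lemma map_qb {S : Type*} [CommRing S] (f : R →+* S) (n : ℕ) (k : ℤ) :
    f (qb q n k) = qb (f q) n k := by
  unfold qb; split_ifs
  · exact map_gb q f n _
  · exact map_zero f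

end gb

section field
variable {K : Type*} [Field K] (q : K)

lemma qb_P1 (n : ℕ) (k : ℤ) :
    qb q (n + 1) k = qb q n (k - 1) + q ^ k * qb q n k := by
  rcases lt_trichotomy k 0 with h | h | h
  · rw [qb_neg q _ h, qb_neg q _ h, qb_neg q _ (by omega)]; ring
  · subst h
    rw [qb_neg q n (by omega)]
    simp [qb, gb_zero_right]
  · obtain ⟨m, rfl⟩ : ∃ m : ℕ, k = ((m + 1 : ℕ) : ℤ) := ⟨k.toNat - 1, by omega⟩
    have e : ((m + 1 : ℕ) : ℤ) - 1 = (m : ℤ) := by push_cast; ring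
    rw [e, qb_natCast, qb_natCast, qb_natCast, zpow_natCast, gb_succ_succ]

lemma qb_P2 (n : ℕ) (k : ℤ) :
    qb q (n + 1) k = qb q n k + q ^ ((n : ℤ) + 1 - k) * qb q n (k - 1) := by
  rcases lt_trichotomy k 0 with h | h | h
  · rw [qb_neg q _ h, qb_neg q _ h, qb_neg q _ (by omega)]; ring
  · subst h
    rw [qb_neg q n (show (0 : ℤ) - 1 < 0 by omega)]
    simp [qb, gb_zero_right]
  · rcases lt_or_ge ((n : ℤ) + 1) k with h1 | h1
    · rw [qb_gt q _ (by push_cast; omega), qb_gt q _ (by omega), qb_gt q _ (by omega)]; ring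
    · obtain ⟨m, rfl⟩ : ∃ m : ℕ, k = ((m + 1 : ℕ) : ℤ) := ⟨k.toNat - 1, by omega⟩
      have e : ((m + 1 : ℕ) : ℤ) - 1 = (m : ℤ) := by push_cast; ring
      have hm : m ≤ n := by omega
      have e2 : (n : ℤ) + 1 - ((m + 1 : ℕ) : ℤ) = ((n - m : ℕ) : ℤ) := by omega
      rw [e, e2, qb_natCast, qb_natCast, qb_natCast, zpow_natCast, gb_pascal2 q n m hm]

/-- `(1 - q^k) [n,k] = (1 - q^{n+1-k}) [n,k-1]` -/
lemma qb_rel (n : ℕ) (k : ℤ) :
    (1 - q ^ k) * qb q n k = (1 - q ^ ((n : ℤ) + 1 - k)) * qb q n (k - 1) := by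
  have e1 := qb_P1 q n k
  have e2 := qb_P2 q n k
  linear_combination e1 - e2

/-- the first two-step identity -/
lemma qb_id1 (hq : q ≠ 0) (N : ℕ) (r : ℤ) :
    qb q (N + 2) r - q ^ ((N : ℤ) - 2 * r + 3) * qb q (N + 2) (r - 1) =
      qb q N r + q ^ N * qb q N (r - 1)
        - q ^ ((N : ℤ) - 2 * r + 3) * (qb q N (r - 3) + q ^ N * qb q N (r - 2)) := by
  have hx : q ^ (N : ℤ) = q ^ N := zpow_natCast q N
  have hy : q ^ r ≠ 0 := zpow_ne_zero _ hq
  have r1 := qb_rel q N r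
  have r2 := qb_rel q N (r - 1)
  have p1 := qb_P1 q (N + 1) r
  have p2 := qb_P1 q (N + 1) (r - 1)
  have p3 := qb_P1 q N r
  have p4 := qb_P1 q N (r - 1)
  have p5 := qb_P1 q N (r - 2)
  have s1 : r - 1 - 1 = r - 2 := by ring
  have s2 : r - 2 - 1 = r - 3 := by ring
  rw [s1] at r2 p2 p4
  rw [s2] at p5
  have z1 : q ^ ((N : ℤ) + 1 - r) = q ^ N * q * (q ^ r)⁻¹ := by
    rw [zpow_sub₀ hq, zpow_add₀ hq, hx, zpow_one]; field_simp
  have z2 : q ^ ((N : ℤ) + 1 - (r - 1)) = q ^ N * q * q * (q ^ r)⁻¹ := by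
    rw [zpow_sub₀ hq, zpow_add₀ hq, zpow_sub₀ hq, hx, zpow_one]; field_simp
  have z3 : q ^ ((N : ℤ) - 2 * r + 3) = q ^ N * q * q * q * (q ^ r)⁻¹ * (q ^ r)⁻¹ := by
    rw [zpow_add₀ hq, zpow_sub₀ hq, two_mul, zpow_add₀ hq, hx]
    rw [show (q : K) ^ (3 : ℤ) = q * q * q by norm_cast; ring]
    field_simp
  have z4 : q ^ (r - 1) = q ^ r * q⁻¹ := by rw [zpow_sub₀ hq, zpow_one]; field_simp
  have z5 : q ^ (r - 2) = q ^ r * q⁻¹ * q⁻¹ := by
    rw [zpow_sub₀ hq, show (q : K) ^ (2 : ℤ) = q * q by norm_cast; ring]; field_simp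
  rw [z1] at r1
  rw [z2, z4] at r2
  rw [z4] at p2 p4
  rw [z5] at p5
  rw [z3, p1, p2, p3, p4, p5]
  generalize hY : q ^ r = y at *
  generalize hX : q ^ N = x at *
  generalize qb q N r = b0 at *
  generalize qb q N (r - 1) = b1 at *
  generalize qb q N (r - 2) = b2 at *
  generalize qb q N (r - 3) = b3 at *
  have hyi : y * y⁻¹ = 1 := mul_inv_cancel₀ hy
  have hqi : q * q⁻¹ = 1 := mul_inv_cancel₀ hq
  field_simp at r1 r2 ⊢
  linear_combination (-(1 + y) * y * q) * r1 + (-(y - x * q)) * r2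

/-- one-step difference -/
lemma qb_diff (hq : q ≠ 0) (N : ℕ) (r : ℤ) :
    qb q (N + 2) r - qb q (N + 2) (r - 1) =
      q ^ r * qb q N r + q ^ (N + 1) * qb q N (r - 1) - q ^ (N + 1) * qb q N (r - 2)
        - q ^ ((N : ℤ) + 3 - r) * qb q N (r - 3) := by
  have hx : q ^ (N : ℤ) = q ^ N := zpow_natCast q N
  have hy : q ^ r ≠ 0 := zpow_ne_zero _ hq
  have p1 := qb_P1 q (N + 1) r
  have p2 := qb_P2 q (N + 1) (r - 1)
  have p3 := qb_P2 q N r
  have p4 := qb_P1 q N (r - 2)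
  have s1 : r - 1 - 1 = r - 2 := by ring
  have s2 : r - 2 - 1 = r - 3 := by ring
  rw [s1] at p2
  rw [s2] at p4
  have z1 : q ^ ((N : ℤ) + 1 - r) = q ^ N * q * (q ^ r)⁻¹ := by
    rw [zpow_sub₀ hq, zpow_add₀ hq, hx, zpow_one]; field_simp
  have z2 : q ^ (((N + 1 : ℕ) : ℤ) + 1 - (r - 1)) = q ^ N * q * q * q * (q ^ r)⁻¹ := by
    push_cast
    rw [zpow_sub₀ hq, zpow_add₀ hq, zpow_add₀ hq, zpow_sub₀ hq, hx, zpow_one]; field_simp
  have z3 : q ^ ((N : ℤ) + 3 - r) = q ^ N * q * q * q * (q ^ r)⁻¹ := by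
    rw [zpow_sub₀ hq, zpow_add₀ hq, hx]
    rw [show (q : K) ^ (3 : ℤ) = q * q * q by norm_cast; ring]
    field_simp
  have z5 : q ^ (r - 2) = q ^ r * q⁻¹ * q⁻¹ := by
    rw [zpow_sub₀ hq, show (q : K) ^ (2 : ℤ) = q * q by norm_cast; ring]; field_simp
  rw [z2] at p2
  rw [z1] at p3
  rw [z5] at p4
  rw [z3, p1, p2, p3, p4, pow_succ]
  generalize hY : q ^ r = y at *
  generalize hX : q ^ N = x at *
  field_simp
  ring

/-- the second two-step identity -/
lemma qb_id2 (hq : q ≠ 0) (N : ℕ) (r : ℤ) :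
    (qb q (N + 2) r - q ^ ((N : ℤ) - 2 * r + 5) * qb q (N + 2) (r - 3))
      - (qb q (N + 2) (r - 1) - q ^ ((N : ℤ) - 2 * r + 5) * qb q (N + 2) (r - 2))
      - q ^ (N + 1) * (qb q N (r - 1) - q ^ ((N : ℤ) - 2 * r + 5) * qb q N (r - 4)) =
      q ^ r * qb q N r - q ^ (2 * (N : ℤ) - 3 * r + 10) * qb q N (r - 5) := by
  have hx : q ^ (N : ℤ) = q ^ N := zpow_natCast q N
  have hy : q ^ r ≠ 0 := zpow_ne_zero _ hq
  have d1 := qb_diff q hq N r
  have d2 := qb_diff q hq N (r - 2)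
  have r2 := qb_rel q N (r - 2)
  rw [show r - 2 - 1 = r - 3 by ring, show r - 2 - 2 = r - 4 by ring,
    show r - 2 - 3 = r - 5 by ring] at d2
  rw [show r - 2 - 1 = r - 3 by ring] at r2
  have h5 : (q : K) ^ (5 : ℤ) = q * q * q * q * q := by norm_cast; ring
  have h3 : (q : K) ^ (3 : ℤ) = q * q * q := by norm_cast; ring
  have h2 : (q : K) ^ (2 : ℤ) = q * q := by norm_cast; ring
  have h10 : (q : K) ^ (10 : ℤ) = q * q * q * q * q * q * q * q * q * q := by norm_cast; ring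
  have z3 : q ^ ((N : ℤ) + 3 - r) = q ^ N * q * q * q * (q ^ r)⁻¹ := by
    rw [zpow_sub₀ hq, zpow_add₀ hq, hx, h3]; field_simp
  have z4 : q ^ ((N : ℤ) + 3 - (r - 2)) = q ^ N * q * q * q * q * q * (q ^ r)⁻¹ := by
    rw [zpow_sub₀ hq, zpow_add₀ hq, zpow_sub₀ hq, hx, h3, h2]; field_simp
  have z5 : q ^ (r - 2) = q ^ r * q⁻¹ * q⁻¹ := by
    rw [zpow_sub₀ hq, h2]; field_simp
  have z6 : q ^ ((N : ℤ) - 2 * r + 5) = q ^ N * q * q * q * q * q * (q ^ r)⁻¹ * (q ^ r)⁻¹ := by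
    rw [zpow_add₀ hq, zpow_sub₀ hq, two_mul, zpow_add₀ hq, hx, h5]; field_simp
  have z7 : q ^ (2 * (N : ℤ) - 3 * r + 10) =
      q ^ N * q ^ N * (q * q * q * q * q * q * q * q * q * q)
        * (q ^ r)⁻¹ * (q ^ r)⁻¹ * (q ^ r)⁻¹ := by
    rw [zpow_add₀ hq, zpow_sub₀ hq, two_mul, zpow_add₀ hq, hx, h10,
      show (3 : ℤ) * r = r + r + r by ring, zpow_add₀ hq, zpow_add₀ hq]; field_simp
  have z8 : q ^ ((N : ℤ) + 1 - (r - 2)) = q ^ N * q * q * q * (q ^ r)⁻¹ := by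
    rw [zpow_sub₀ hq, zpow_add₀ hq, zpow_sub₀ hq, hx, h2, zpow_one]; field_simp
  rw [z3] at d1
  rw [z5, z4] at d2
  rw [z5, z8] at r2
  rw [z6, z7]
  rw [pow_succ] at *
  generalize q ^ r = y at *
  generalize q ^ N = x at *
  generalize qb q (N + 2) r = c0 at *
  generalize qb q (N + 2) (r - 1) = c1 at *
  generalize qb q (N + 2) (r - 2) = c2 at *
  generalize qb q (N + 2) (r - 3) = c3 at *
  generalize qb q N r = b0 at *
  generalize qb q N (r - 1) = b1 at *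
  generalize qb q N (r - 2) = b2 at *
  generalize qb q N (r - 3) = b3 at *
  generalize qb q N (r - 4) = b4 at *
  generalize qb q N (r - 5) = b5 at *
  have e0 : c0 = c1 + (y * b0 + x * q * b1 - x * q * b2 - x * q * q * q * y⁻¹ * b3) := by
    linear_combination d1
  have e2 : c2 = c3 + (y * q⁻¹ * q⁻¹ * b2 + x * q * b3 - x * q * b4
      - x * q * q * q * q * q * y⁻¹ * b5) := by
    linear_combination d2
  rw [e0, e2]
  field_simp at r2 ⊢
  linear_combination (x * q * y * q ^ 0) * r2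

end field

/-! ### The two alternating sums -/

/-- the sum over `k ≡ ±1 (mod 5)` -/
def At {R : Type*} [CommRing R] (q : R) (J n : ℕ) : R :=
  ∑ j ∈ range J, (q ^ (5 * j * (2 * j + 1)) * qb q (2 * n) ((n : ℤ) - 5 * j - 1)
    - q ^ (5 * (j + 1) * (2 * j + 1)) * qb q (2 * n) ((n : ℤ) - 5 * j - 4))

/-- the sum over `k ≡ ±2 (mod 5)` -/
def Bt {R : Type*} [CommRing R] (q : R) (J n : ℕ) : R :=
  ∑ j ∈ range J, (q ^ (5 * j * (2 * j + 1)) * qb q (2 * n) ((n : ℤ) - 5 * j - 2)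
    - q ^ (5 * (j + 1) * (2 * j + 1)) * qb q (2 * n) ((n : ℤ) - 5 * j - 3))

lemma map_At {R S : Type*} [CommRing R] [CommRing S] (f : R →+* S) (q : R) (J n : ℕ) :
    f (At q J n) = At (f q) J n := by
  unfold At; rw [map_sum]
  apply Finset.sum_congr rfl; intro j _
  rw [map_sub, map_mul, map_mul, map_pow, map_pow, map_qb, map_qb]

lemma map_Bt {R S : Type*} [CommRing R] [CommRing S] (f : R →+* S) (q : R) (J n : ℕ) :
    f (Bt q J n) = Bt (f q) J n := by
  unfold Bt; rw [map_sum]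
  apply Finset.sum_congr rfl; intro j _
  rw [map_sub, map_mul, map_mul, map_pow, map_pow, map_qb, map_qb]

lemma rec1_field {K : Type*} [Field K] (q : K) (hq : q ≠ 0) (J n : ℕ) :
    Bt q J (n + 1) = At q J n + q ^ (2 * n) * Bt q J n := by
  unfold At Bt
  rw [Finset.mul_sum, ← Finset.sum_add_distrib]
  apply Finset.sum_congr rfl
  intro j _
  have h := qb_id1 q hq (2 * n) ((n : ℤ) - 5 * j - 1)
  have hz : q ^ (((2 * n : ℕ) : ℤ) - 2 * ((n : ℤ) - 5 * j - 1) + 3) = q ^ (10 * j + 5) := by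
    rw [← zpow_natCast]; congr 1; push_cast; ring
  rw [hz] at h
  have e1 : (((n + 1 : ℕ)) : ℤ) - 5 * j - 2 = (n : ℤ) - 5 * j - 1 := by push_cast; ring
  have e2 : (((n + 1 : ℕ)) : ℤ) - 5 * j - 3 = (n : ℤ) - 5 * j - 1 - 1 := by push_cast; ring
  have e3 : (n : ℤ) - 5 * j - 4 = (n : ℤ) - 5 * j - 1 - 3 := by ring
  have e4 : (n : ℤ) - 5 * j - 2 = (n : ℤ) - 5 * j - 1 - 1 := by ring
  have e5 : (n : ℤ) - 5 * j - 3 = (n : ℤ) - 5 * j - 1 - 2 := by ring
  have e6 : 2 * (n + 1) = 2 * n + 2 := by ring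
  rw [e1, e2, e3, e4, e5, e6]
  have hb : q ^ (5 * (j + 1) * (2 * j + 1)) = q ^ (5 * j * (2 * j + 1)) * q ^ (10 * j + 5) := by
    rw [← pow_add]; congr 1; ring
  rw [hb]
  linear_combination q ^ (5 * j * (2 * j + 1)) * h

lemma rec2_field {K : Type*} [Field K] (q : K) (hq : q ≠ 0) (J n : ℕ) (hn : n < 5 * J) :
    At q J (n + 1) = q ^ n * qb q (2 * n) n + q ^ (2 * n + 1) * At q J n + Bt q J (n + 1) := by
  have key : ∀ j ∈ range J,
      (q ^ (5 * j * (2 * j + 1)) * qb q (2 * (n + 1)) (((n + 1 : ℕ) : ℤ) - 5 * j - 1)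
        - q ^ (5 * (j + 1) * (2 * j + 1)) * qb q (2 * (n + 1)) (((n + 1 : ℕ) : ℤ) - 5 * j - 4))
      - q ^ (2 * n + 1) * (q ^ (5 * j * (2 * j + 1)) * qb q (2 * n) ((n : ℤ) - 5 * j - 1)
        - q ^ (5 * (j + 1) * (2 * j + 1)) * qb q (2 * n) ((n : ℤ) - 5 * j - 4))
      - (q ^ (5 * j * (2 * j + 1)) * qb q (2 * (n + 1)) (((n + 1 : ℕ) : ℤ) - 5 * j - 2)
        - q ^ (5 * (j + 1) * (2 * j + 1)) * qb q (2 * (n + 1)) (((n + 1 : ℕ) : ℤ) - 5 * j - 3))
      = (fun i : ℕ => q ^ (10 * i ^ 2 + n) * qb q (2 * n) ((n : ℤ) - 5 * i)) j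
        - (fun i : ℕ => q ^ (10 * i ^ 2 + n) * qb q (2 * n) ((n : ℤ) - 5 * i)) (j + 1) := by
    intro j _
    have h := qb_id2 q hq (2 * n) ((n : ℤ) - 5 * j)
    have hz : q ^ (((2 * n : ℕ) : ℤ) - 2 * ((n : ℤ) - 5 * j) + 5) = q ^ (10 * j + 5) := by
      rw [← zpow_natCast]; congr 1; push_cast; ring
    rw [hz] at h
    have e1 : (((n + 1 : ℕ)) : ℤ) - 5 * j - 1 = (n : ℤ) - 5 * j := by push_cast; ring
    have e2 : (((n + 1 : ℕ)) : ℤ) - 5 * j - 4 = (n : ℤ) - 5 * j - 3 := by push_cast; ring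
    have e3 : (((n + 1 : ℕ)) : ℤ) - 5 * j - 2 = (n : ℤ) - 5 * j - 1 := by push_cast; ring
    have e4 : (((n + 1 : ℕ)) : ℤ) - 5 * j - 3 = (n : ℤ) - 5 * j - 2 := by push_cast; ring
    have e6 : 2 * (n + 1) = 2 * n + 2 := by ring
    have e7 : (n : ℤ) - 5 * ((j + 1 : ℕ) : ℤ) = (n : ℤ) - 5 * j - 5 := by push_cast; ring
    simp only []
    rw [e1, e2, e3, e4, e6, e7]
    have hb : q ^ (5 * (j + 1) * (2 * j + 1)) = q ^ (5 * j * (2 * j + 1)) * q ^ (10 * j + 5) := by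
      rw [← pow_add]; congr 1; ring
    have hg1 : q ^ (10 * j ^ 2 + n) = q ^ (5 * j * (2 * j + 1)) * q ^ ((n : ℤ) - 5 * j) := by
      rw [← zpow_natCast, ← zpow_natCast q (5 * j * (2 * j + 1)), ← zpow_add₀ hq]
      congr 1; push_cast; ring
    have hg2 : q ^ (10 * (j + 1) ^ 2 + n) = q ^ (5 * j * (2 * j + 1)) *
        q ^ (2 * ((2 * n : ℕ) : ℤ) - 3 * ((n : ℤ) - 5 * j) + 10) := by
      rw [← zpow_natCast, ← zpow_natCast q (5 * j * (2 * j + 1)), ← zpow_add₀ hq]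
      congr 1; push_cast; ring
    rw [hb, hg1, hg2]
    linear_combination q ^ (5 * j * (2 * j + 1)) * h
  have hs := Finset.sum_congr rfl key
  rw [Finset.sum_range_sub'] at hs
  rw [Finset.sum_sub_distrib, Finset.sum_sub_distrib, ← Finset.mul_sum] at hs
  have hg0 : q ^ (10 * 0 ^ 2 + n) * qb q (2 * n) ((n : ℤ) - 5 * ((0 : ℕ) : ℤ))
      = q ^ n * qb q (2 * n) n := by simp
  have hgJ : q ^ (10 * J ^ 2 + n) * qb q (2 * n) ((n : ℤ) - 5 * J) = 0 := by
    rw [qb_neg q _ (by omega)]; ring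
  rw [hg0, hgJ] at hs
  unfold At Bt
  linear_combination hs

lemma rec1 (J n : ℕ) :
    Bt (X : ℤ[X]) J (n + 1) = At (X : ℤ[X]) J n + X ^ (2 * n) * Bt (X : ℤ[X]) J n := by
  apply IsFractionRing.injective ℤ[X] (FractionRing ℤ[X])
  rw [map_add, map_mul, map_pow, map_Bt, map_Bt, map_At]
  apply rec1_field
  intro h
  exact X_ne_zero (IsFractionRing.injective ℤ[X] (FractionRing ℤ[X]) (by rw [h, map_zero]))

lemma rec2 (J n : ℕ) (hn : n < 5 * J) :
    At (X : ℤ[X]) J (n + 1) = X ^ n * gb X (2 * n) n + X ^ (2 * n + 1) * At (X : ℤ[X]) J n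
      + Bt (X : ℤ[X]) J (n + 1) := by
  apply IsFractionRing.injective ℤ[X] (FractionRing ℤ[X])
  rw [map_add, map_add, map_mul, map_mul, map_pow, map_pow, map_Bt, map_At, map_At, map_gb]
  rw [← qb_natCast]
  apply rec2_field _ _ _ _ hn
  intro h
  exact X_ne_zero (IsFractionRing.injective ℤ[X] (FractionRing ℤ[X]) (by rw [h, map_zero]))

/-! ### Schur's q-Fibonacci polynomials and the finite sum -/

noncomputable def PP (J n : ℕ) : ℤ[X] :=
  At X J n * (schurF (2 * n + 1) - schurF (2 * n)) - X ^ (2 * n) * Bt X J n * schurF (2 * n)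

lemma PP_succ (J n : ℕ) (hn : n < 5 * J) :
    PP J (n + 1) = X ^ (4 * n + 3) * PP J n
      + X ^ (3 * n + 2) * (gb X (2 * n) n * schurF (2 * n + 1)) := by
  have h1 := rec1 J n
  have h2 := rec2 J n hn
  have f1 : schurF (2 * (n + 1)) = schurF (2 * n + 1) + X ^ (2 * n + 1) * schurF (2 * n) := by
    have : 2 * (n + 1) = 2 * n + 2 := by ring
    rw [this]; rfl
  have f2 : schurF (2 * (n + 1) + 1) =
      schurF (2 * (n + 1)) + X ^ (2 * n + 2) * schurF (2 * n + 1) := by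
    have e : 2 * (n + 1) + 1 = (2 * n + 1) + 2 := by ring
    have e' : 2 * (n + 1) = (2 * n + 1) + 1 := by ring
    rw [e, e']; rfl
  unfold PP
  rw [f2, f1, h2, h1]
  ring

lemma laurent_identity (J : ℕ) (n : ℕ) (hn : n ≤ 5 * J) :
    LaurentPolynomial.T ((2 * (n : ℤ) - 1) * (n + 1)) *
      ∑ k ∈ range n, (LaurentPolynomial.T (-(2 * (k : ℤ) * (k + 1))) *
        Polynomial.toLaurent (gb X (2 * k) k * schurF (2 * k + 1)))
      = Polynomial.toLaurent (PP J n) := by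
  induction n with
  | zero =>
    have hA : At (X : ℤ[X]) J 0 = 0 := by
      unfold At
      apply Finset.sum_eq_zero
      intro j _
      rw [qb_neg _ _ (by push_cast; omega), qb_neg _ _ (by push_cast; omega)]; ring
    have hB : Bt (X : ℤ[X]) J 0 = 0 := by
      unfold Bt
      apply Finset.sum_eq_zero
      intro j _
      rw [qb_neg _ _ (by push_cast; omega), qb_neg _ _ (by push_cast; omega)]; ring
    simp [PP, hA, hB]
  | succ n ih =>
    have ih' := ih (by omega)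
    rw [PP_succ J n (by omega), map_add, map_mul, map_mul, Polynomial.toLaurent_X_pow,
      Polynomial.toLaurent_X_pow, ← ih', Finset.sum_range_succ, mul_add, ← mul_assoc, ← mul_assoc,
      ← LaurentPolynomial.T_add, ← LaurentPolynomial.T_add]
    congr 3
    · push_cast; ring
    · push_cast; ring

/-! ### Divisibility at roots of unity -/

lemma sq_dvd_of_eval {K : Type*} [Field K] (f : K[X]) (z : K) (h0 : f.eval z = 0)
    (h1 : (derivative f).eval z = 0) : (X - C z) ^ 2 ∣ f := by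
  obtain ⟨g, hg⟩ := dvd_iff_isRoot.mpr (show IsRoot f z from h0)
  have hd : derivative f = g + (X - C z) * derivative g := by
    rw [hg, derivative_mul]; simp
  rw [hd] at h1
  simp at h1
  obtain ⟨g', hg'⟩ := dvd_iff_isRoot.mpr (show IsRoot g z from h1)
  rw [hg, hg', ← mul_assoc, ← pow_two]
  exact dvd_mul_right _ _

section root
variable {d n : ℕ} {z : ℂ}

lemma gb_root_zero (hn : 0 < n) (hz2 : z ^ (2 * n) = 1) (r : ℕ) (hr : z ^ r ≠ 1)
    (hrn : r ≤ 2 * n) : gb z (2 * n) r = 0 := by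
  obtain ⟨s, rfl⟩ : ∃ s, r = s + 1 := by
    cases r with
    | zero => simp at hr
    | succ s => exact ⟨s, rfl⟩
  obtain ⟨N, hN⟩ : ∃ N, 2 * n = N + 1 := ⟨2 * n - 1, by omega⟩
  have h := gb_absorb2 z N s (by omega)
  rw [← hN, hz2, sub_self, zero_mul] at h
  rcases mul_eq_zero.mp h with h1 | h1
  · exact absurd (sub_eq_zero.mp h1).symm hr
  · exact h1

/-- value of the derivative of `[2n, r]` at `z` -/
noncomputable def Dv (z : ℂ) (n r : ℕ) : ℂ := (derivative (gb (X : ℂ[X]) (2 * n) r)).eval z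

lemma eval_gb (z : ℂ) (n r : ℕ) : (gb (X : ℂ[X]) n r).eval z = gb z n r := by
  have := map_gb (X : ℂ[X]) (Polynomial.evalRingHom z) n r
  simpa using this

lemma Dv_eq (hn : 0 < n) (hz2 : z ^ (2 * n) = 1) (r : ℕ) (hr : z ^ (r + 1) ≠ 1)
    (hrn : r + 1 ≤ 2 * n) :
    (1 - z ^ (r + 1)) * Dv z n (r + 1) = -(2 * n) * z ^ (2 * n - 1) * gb z (2 * n - 1) r := by
  obtain ⟨N, hN⟩ : ∃ N, 2 * n = N + 1 := ⟨2 * n - 1, by omega⟩
  have h := gb_absorb2 (X : ℂ[X]) N r (by omega)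
  rw [← hN] at h
  have h' := congrArg (fun f => (derivative f).eval z) h
  simp only [derivative_mul, derivative_sub, derivative_one, derivative_X_pow, eval_add, eval_mul,
    eval_sub, eval_pow, eval_X, eval_one, zero_sub, eval_neg, eval_gb] at h'
  rw [gb_root_zero hn hz2 (r + 1) hr hrn, hz2] at h'
  have e : 2 * n - 1 = N := by omega
  unfold Dv
  rw [e] at h' ⊢
  simp at h'
  rw [h']; ring

/-- step of the top row `[2n-1, r]` at a root of unity -/
lemma V_step (hn : 0 < n) (hz2 : z ^ (2 * n) = 1) (r : ℕ) (hr : z ^ (r + 1) ≠ 1)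
    (hrn : r + 1 ≤ 2 * n) :
    z ^ (r + 1) * gb z (2 * n - 1) (r + 1) = - gb z (2 * n - 1) r := by
  have h := gb_absorb z (2 * n - 1) r (by omega)
  have e : z ^ (r + 1) * z ^ (2 * n - 1 - r) = 1 := by
    rw [← pow_add, ← hz2]; congr 1; omega
  have h1 : (1 - z ^ (r + 1)) ≠ 0 := fun h0 => hr (sub_eq_zero.mp h0).symm
  apply mul_left_cancel₀ h1
  linear_combination z ^ (r + 1) * h - gb z (2 * n - 1) r * e

/-- triangular numbers -/
def tri (t : ℕ) : ℕ := ∑ i ∈ range (t + 1), i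

lemma tri_succ (t : ℕ) : tri (t + 1) = tri t + (t + 1) := by
  unfold tri; rw [Finset.sum_range_succ]

lemma two_tri (t : ℕ) : 2 * tri t = t * (t + 1) := by
  induction t with
  | zero => rfl
  | succ t ih => rw [tri_succ, mul_add, ih]; ring

lemma V_block (hz : IsPrimitiveRoot z d) (hn : 0 < n) (hdn : d ∣ n) (κ : ℕ)
    (hκ : d * κ + d ≤ n) (t : ℕ) (ht : t < d) :
    gb z (2 * n - 1) (d * κ + t) * z ^ tri t = (-1) ^ t * gb z (2 * n - 1) (d * κ) := by
  have hz2 : z ^ (2 * n) = 1 := (hz.pow_eq_one_iff_dvd _).mpr (Dvd.dvd.mul_left hdn 2)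
  induction t with
  | zero => simp [tri]
  | succ t ih =>
    have ih' := ih (by omega)
    have hzk : z ^ (d * κ) = 1 := by rw [pow_mul, hz.pow_eq_one, one_pow]
    have e : z ^ (d * κ + t + 1) = z ^ (t + 1) := by
      rw [add_assoc, pow_add, hzk, one_mul]
    have hne : z ^ (d * κ + t + 1) ≠ 1 := by
      rw [e]; exact hz.pow_ne_one_of_pos_of_lt (by omega) ht
    have hs := V_step hn hz2 (d * κ + t) hne (by omega)
    rw [e] at hs
    rw [tri_succ, pow_add, ← add_assoc, pow_succ (-1 : ℂ) t]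
    linear_combination z ^ tri t * hs - ih'

lemma Dv_mirror (hz : IsPrimitiveRoot z d) (hn : 0 < n) (hdn : d ∣ n) (hd : Odd d) (κ : ℕ)
    (hκ : d * κ + d ≤ n) (a b : ℕ) (hab : a + b + 2 = d) :
    Dv z n (d * κ + (a + 1)) = Dv z n (d * κ + (b + 1)) := by
  have hz2 : z ^ (2 * n) = 1 := (hz.pow_eq_one_iff_dvd _).mpr (Dvd.dvd.mul_left hdn 2)
  have hzk : z ^ (d * κ) = 1 := by rw [pow_mul, hz.pow_eq_one, one_pow]
  have hzd : z ^ d = 1 := hz.pow_eq_one
  have ea : z ^ (d * κ + a + 1) = z ^ (a + 1) := by rw [add_assoc, pow_add, hzk, one_mul]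
  have eb : z ^ (d * κ + b + 1) = z ^ (b + 1) := by rw [add_assoc, pow_add, hzk, one_mul]
  have hna : z ^ (a + 1) ≠ 1 := hz.pow_ne_one_of_pos_of_lt (by omega) (by omega)
  have hnb : z ^ (b + 1) ≠ 1 := hz.pow_ne_one_of_pos_of_lt (by omega) (by omega)
  have h1 := Dv_eq hn hz2 (d * κ + a) (by rw [ea]; exact hna) (by omega)
  have h2 := Dv_eq hn hz2 (d * κ + b) (by rw [eb]; exact hnb) (by omega)
  rw [ea] at h1
  rw [eb] at h2
  have v1 := V_block hz hn hdn κ hκ a (by omega)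
  have v2 := V_block hz hn hdn κ hκ b (by omega)
  have hprod : z ^ (a + 1) * z ^ (b + 1) = 1 := by
    rw [← pow_add, ← hzd]; congr 1; omega
  have hsign : (-1 : ℂ) ^ b = - (-1) ^ a := by
    obtain ⟨w, hw⟩ := hd
    have h3 : b + a + 1 = 2 * w := by omega
    have h4 : (-1 : ℂ) ^ (b + a + 1) = 1 := by rw [h3, pow_mul]; norm_num
    have h5 : (-1 : ℂ) ^ a * (-1) ^ a = 1 := by rw [← mul_pow]; norm_num
    have h6 : (-1 : ℂ) ^ (b + a + 1) = - ((-1) ^ b * (-1) ^ a) := by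
      rw [pow_succ, pow_add]; ring
    rw [h6] at h4
    linear_combination (-(-1 : ℂ) ^ a) * h4 - (-1 : ℂ) ^ b * h5
  have htri : z ^ tri b = z ^ tri a * z ^ (a + 1) := by
    have e1 : tri b + d * (a + 1) = tri (a + b + 1) + tri (a + 1) := by
      have t1 := two_tri b
      have t2 := two_tri (a + b + 1)
      have t3 := two_tri (a + 1)
      have : 2 * (tri b + d * (a + 1)) = 2 * (tri (a + b + 1) + tri (a + 1)) := by
        rw [show 2 * (tri b + d * (a + 1)) = 2 * tri b + 2 * (d * (a + 1)) by ring,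
          show 2 * (tri (a + b + 1) + tri (a + 1)) = 2 * tri (a + b + 1) + 2 * tri (a + 1) by ring,
          t1, t2, t3, ← hab]; ring
      omega
    have e2 : z ^ tri (a + b + 1) = 1 := by
      obtain ⟨w, hw⟩ := hd
      have t2 := two_tri (a + b + 1)
      have h3 : a + b + 1 = 2 * w := by omega
      have h4 : tri (a + b + 1) = d * w := by
        have : 2 * tri (a + b + 1) = 2 * (d * w) := by
          rw [t2, h3, hw]; ring
        omega
      rw [h4, pow_mul, hzd, one_pow]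
    have e3 : z ^ (tri b + d * (a + 1)) = z ^ tri b := by
      rw [pow_add, pow_mul, hzd, one_pow, mul_one]
    rw [← e3, e1, pow_add, e2, one_mul, tri_succ, pow_add]
  rw [htri, hsign] at v2
  have hz0 : z ≠ 0 := hz.ne_zero (by omega)
  have hza : z ^ tri a ≠ 0 := pow_ne_zero _ hz0
  have h1a : (1 - z ^ (a + 1)) ≠ 0 := fun h0 => hna (sub_eq_zero.mp h0).symm
  rw [← add_assoc, ← add_assoc]
  apply mul_left_cancel₀ (mul_ne_zero h1a hza)
  generalize (-(2 * (n : ℂ)) * z ^ (2 * n - 1)) = c0 at *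
  generalize Dv z n (d * κ + a + 1) = D1 at *
  generalize Dv z n (d * κ + b + 1) = D2 at *
  generalize gb z (2 * n - 1) (d * κ + a) = Va at *
  generalize gb z (2 * n - 1) (d * κ + b) = Vb at *
  generalize gb z (2 * n - 1) (d * κ) = V0 at *
  generalize z ^ tri a = ta at *
  generalize (-1 : ℂ) ^ a = sg at *
  generalize z ^ (a + 1) = A at *
  generalize z ^ (b + 1) = B at *
  linear_combination ta * h1 + c0 * v1 + A * ta * h2 + c0 * v2 + (D2 * ta) * hprod

/-- the alternating sum, in reversed natural indices -/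
noncomputable def Wt (J c : ℕ) : ℂ[X] :=
  ∑ j ∈ range J, (X ^ (5 * j * (2 * j + 1)) * gb (X : ℂ[X]) (2 * (5 * J)) (5 * (J - 1 - j) + (5 - c))
    - X ^ (5 * (j + 1) * (2 * j + 1)) * gb (X : ℂ[X]) (2 * (5 * J)) (5 * (J - 1 - j) + c))

lemma At_eq_Wt (J : ℕ) : At (X : ℂ[X]) J (5 * J) = Wt J 1 := by
  unfold At Wt
  apply Finset.sum_congr rfl
  intro j hj
  have hj' : j < J := mem_range.mp hj
  have e1 : ((5 * J : ℕ) : ℤ) - 5 * j - 1 = ((5 * (J - 1 - j) + (5 - 1) : ℕ) : ℤ) := by omega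
  have e2 : ((5 * J : ℕ) : ℤ) - 5 * j - 4 = ((5 * (J - 1 - j) + 1 : ℕ) : ℤ) := by omega
  rw [e1, e2, qb_natCast, qb_natCast]

lemma Bt_eq_Wt (J : ℕ) : Bt (X : ℂ[X]) J (5 * J) = Wt J 2 := by
  unfold Bt Wt
  apply Finset.sum_congr rfl
  intro j hj
  have hj' : j < J := mem_range.mp hj
  have e1 : ((5 * J : ℕ) : ℤ) - 5 * j - 2 = ((5 * (J - 1 - j) + (5 - 2) : ℕ) : ℤ) := by omega
  have e2 : ((5 * J : ℕ) : ℤ) - 5 * j - 3 = ((5 * (J - 1 - j) + 2 : ℕ) : ℤ) := by omega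
  rw [e1, e2, qb_natCast, qb_natCast]

lemma pow_a (e M' i : ℕ) (hz : IsPrimitiveRoot z (5 * e)) :
    z ^ (5 * (e * M' + i) * (2 * (e * M' + i) + 1)) = z ^ (5 * i * (2 * i + 1)) := by
  have : 5 * (e * M' + i) * (2 * (e * M' + i) + 1) =
      5 * i * (2 * i + 1) + (5 * e) * (M' * (2 * (e * M' + i) + 1) + 2 * i * M') := by ring
  rw [this, pow_add, pow_mul z (5 * e), hz.pow_eq_one, one_pow, mul_one]

lemma pow_b (e M' i : ℕ) (hi : i < e) (hz : IsPrimitiveRoot z (5 * e)) :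
    z ^ (5 * ((e * M' + (e - 1 - i)) + 1) * (2 * (e * M' + (e - 1 - i)) + 1))
      = z ^ (5 * i * (2 * i + 1)) := by
  obtain ⟨u, rfl⟩ : ∃ u, e = i + 1 + u := ⟨e - (i + 1), by omega⟩
  have hu : i + 1 + u - 1 - i = u := by omega
  rw [hu]
  have h1 : 5 * (((i + 1 + u) * M' + u) + 1) * (2 * ((i + 1 + u) * M' + u) + 1)
      + (5 * (i + 1 + u)) * ((M' + 1) * (4 * i + 1))
      = 5 * i * (2 * i + 1) + (5 * (i + 1 + u)) * (2 * (M' + 1) * ((i + 1 + u) * (M' + 1))) := by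
    ring
  have h2 := congrArg (fun s => z ^ s) h1
  simp only [pow_add z _ _, pow_mul z (5 * (i + 1 + u)), hz.pow_eq_one, one_pow, mul_one] at h2
  exact h2

lemma block_sum_zero (e M : ℕ) (he : 0 < e) (hodd : Odd (5 * e)) (hz : IsPrimitiveRoot z (5 * e))
    (c : ℕ) (hc : 0 < c) (hc5 : c < 5) (M' : ℕ) (hM' : M' ≤ M) :
    ∑ j ∈ range (e * M'), (z ^ (5 * j * (2 * j + 1)) *
        Dv z (5 * (e * M)) (5 * (e * M - 1 - j) + (5 - c))
      - z ^ (5 * (j + 1) * (2 * j + 1)) * Dv z (5 * (e * M)) (5 * (e * M - 1 - j) + c)) = 0 := by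
  induction M' with
  | zero => simp
  | succ M' ih =>
    rw [mul_add, mul_one, Finset.sum_range_add, ih (by omega), zero_add, Finset.sum_sub_distrib,
      sub_eq_zero]
    rw [← Finset.sum_range_reflect (fun i => z ^ (5 * (e * M' + i + 1) * (2 * (e * M' + i) + 1)) *
      Dv z (5 * (e * M)) (5 * (e * M - 1 - (e * M' + i)) + c)) e]
    apply Finset.sum_congr rfl
    intro i hi
    have hi' : i < e := mem_range.mp hi
    rw [pow_a e M' i hz, pow_b e M' i hi' hz]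
    congr 1
    obtain ⟨κ, rfl⟩ : ∃ κ, M = κ + 1 + M' := ⟨M - 1 - M', by omega⟩
    obtain ⟨u, rfl⟩ : ∃ u, e = i + 1 + u := ⟨e - (i + 1), by omega⟩
    have hexp : (i + 1 + u) * (κ + 1 + M')
        = (i + 1 + u) * κ + (i + 1 + u) + (i + 1 + u) * M' := by ring
    have i1 : 5 * ((i + 1 + u) * (κ + 1 + M') - 1 - ((i + 1 + u) * M' + i)) + (5 - c)
        = 5 * (i + 1 + u) * κ + ((5 * u + 4 - c) + 1) := by
      rw [hexp]
      have : (i + 1 + u) * κ + (i + 1 + u) + (i + 1 + u) * M' - 1 - ((i + 1 + u) * M' + i)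
        = (i + 1 + u) * κ + u := by omega
      rw [this, mul_assoc]; omega
    have i2 : 5 * ((i + 1 + u) * (κ + 1 + M') - 1 - ((i + 1 + u) * M' + (i + 1 + u - 1 - i))) + c
        = 5 * (i + 1 + u) * κ + ((5 * i + c - 1) + 1) := by
      rw [hexp]
      have : (i + 1 + u) * κ + (i + 1 + u) + (i + 1 + u) * M' - 1
          - ((i + 1 + u) * M' + (i + 1 + u - 1 - i)) = (i + 1 + u) * κ + i := by omega
      rw [this, mul_assoc]; omega
    rw [i1, i2]
    apply Dv_mirror hz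
    · positivity
    · exact ⟨κ + 1 + M', by ring⟩
    · exact hodd
    · rw [hexp, mul_assoc]
      have : 0 ≤ (i + 1 + u) * M' := Nat.zero_le _
      omega
    · omega

lemma Wt_sq_dvd (e M : ℕ) (he : 0 < e) (hM : 0 < M) (hodd : Odd (5 * e))
    (hz : IsPrimitiveRoot z (5 * e)) (c : ℕ) (hc : 0 < c) (hc5 : c < 5) :
    (X - C z) ^ 2 ∣ Wt (e * M) c := by
  have hn : 0 < 5 * (e * M) := by positivity
  have hz2 : z ^ (2 * (5 * (e * M))) = 1 :=
    (hz.pow_eq_one_iff_dvd _).mpr ⟨2 * M, by ring⟩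
  have hne : ∀ i s : ℕ, 0 < s → s < 5 → z ^ (5 * i + s) ≠ 1 := by
    intro i s h0 h5 h
    have h1 := (hz.pow_eq_one_iff_dvd _).mp h
    have h2 : 5 ∣ 5 * i + s := dvd_trans (Dvd.intro e rfl) h1
    omega
  have hzero : ∀ j ∈ range (e * M), ∀ s : ℕ, 0 < s → s < 5 →
      gb z (2 * (5 * (e * M))) (5 * (e * M - 1 - j) + s) = 0 := by
    intro j hj s h0 h5
    have hj' : j < e * M := mem_range.mp hj
    apply gb_root_zero hn hz2 _ (hne _ s h0 h5)
    omega
  apply sq_dvd_of_eval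
  · unfold Wt
    rw [eval_finsetSum]
    apply Finset.sum_eq_zero
    intro j hj
    rw [eval_sub, eval_mul, eval_mul, eval_gb, eval_gb, hzero j hj _ (by omega) (by omega),
      hzero j hj c hc hc5]
    ring
  · unfold Wt
    rw [derivative_sum, eval_finsetSum]
    rw [← block_sum_zero e M he hodd hz c hc hc5 M le_rfl]
    apply Finset.sum_congr rfl
    intro j hj
    rw [derivative_sub, derivative_mul, derivative_mul, eval_sub, eval_add, eval_add, eval_mul,
      eval_mul, eval_mul, eval_mul, eval_gb, eval_gb, hzero j hj _ (by omega) (by omega),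
      hzero j hj c hc hc5]
    simp [Dv]

end root

/-! ### Back to `ℤ[X]` -/

lemma prod_roots (N : ℕ) (hN : 0 < N) :
    ∏ z ∈ (nthRootsFinset N (1 : ℂ)).erase 1, (X - C z) = ∑ k ∈ range N, (X : ℂ[X]) ^ k := by
  have hz := Complex.isPrimitiveRoot_exp N hN.ne'
  have h1 := X_pow_sub_one_eq_prod hN hz
  have hmem : (1 : ℂ) ∈ nthRootsFinset N (1 : ℂ) := by
    rw [mem_nthRootsFinset hN]; simp
  rw [← Finset.mul_prod_erase _ _ hmem, ← mul_geom_sum] at h1
  have hX : (X - 1 : ℂ[X]) ≠ 0 := by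
    have := X_sub_C_ne_zero (1 : ℂ)
    rwa [C_1] at this
  rw [C_1] at h1
  exact (mul_left_cancel₀ hX h1).symm

lemma dvd_of_roots (N : ℕ) (hN : 0 < N) (f : ℤ[X])
    (h : ∀ z : ℂ, z ^ N = 1 → z ≠ 1 → (X - C z) ^ 2 ∣ f.map (Int.castRingHom ℂ)) :
    qNum N ^ 2 ∣ f := by
  have hmonic : (qNum N ^ 2).Monic := (monic_geom_sum_X hN.ne').pow 2
  rw [← Polynomial.map_dvd_map (Int.castRingHom ℂ) (RingHom.injective_int _) hmonic]
  have hmap : (qNum N ^ 2).map (Int.castRingHom ℂ)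
      = ∏ z ∈ (nthRootsFinset N (1 : ℂ)).erase 1, (X - C z) ^ 2 := by
    rw [Finset.prod_pow, prod_roots N hN, Polynomial.map_pow]
    unfold qNum
    rw [Polynomial.map_sum]
    simp
  rw [hmap]
  apply Finset.prod_dvd_of_coprime
  · intro z _ w _ hzw
    have := pairwise_coprime_X_sub_C (K := ℂ) (s := fun z => z) (fun _ _ h => h) hzw
    exact this.pow
  · intro z hz
    rw [Finset.mem_erase, mem_nthRootsFinset hN] at hz
    exact h z hz.2 hz.1

lemma fac_eq (n k : ℕ) (h : k ≤ n) :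
    ((∏ s ∈ Icc 1 k, qNum s) * ∏ t ∈ Icc 1 (n - k), qNum t) * gb X n k
      = ∏ r ∈ Icc 1 n, qNum r := by
  induction n generalizing k with
  | zero =>
    obtain rfl : k = 0 := by omega
    simp [gb]
  | succ n ih =>
    cases k with
    | zero => simp [gb]
    | succ k =>
      have hk : k ≤ n := by omega
      have ih' := ih k hk
      have h1 := gb_absorb2 (X : ℤ[X]) n k hk
      have g1 : (X - 1 : ℤ[X]) * qNum (k + 1) = X ^ (k + 1) - 1 := mul_geom_sum _ _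
      have g2 : (X - 1 : ℤ[X]) * qNum (n + 1) = X ^ (n + 1) - 1 := mul_geom_sum _ _
      have hX : (X - 1 : ℤ[X]) ≠ 0 := by
        have := X_sub_C_ne_zero (1 : ℤ)
        rwa [C_1] at this
      have h2 : qNum (k + 1) * gb X (n + 1) (k + 1) = qNum (n + 1) * gb X n k := by
        apply mul_left_cancel₀ hX
        linear_combination (-1 : ℤ[X]) * h1 + gb X (n + 1) (k + 1) * g1 - gb X n k * g2
      rw [Finset.prod_Icc_succ_top (by omega), Finset.prod_Icc_succ_top (by omega), ← ih',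
        Nat.add_sub_add_right]
      linear_combination ((∏ s ∈ Icc 1 k, qNum s) * ∏ t ∈ Icc 1 (n - k), qNum t) * h2

lemma fac_monic (n k : ℕ) :
    ((∏ s ∈ Icc 1 k, qNum s) * ∏ t ∈ Icc 1 (n - k), qNum t).Monic := by
  apply Monic.mul
  · apply monic_prod_of_monic
    intro i hi
    exact monic_geom_sum_X (by rw [mem_Icc] at hi; omega)
  · apply monic_prod_of_monic
    intro i hi
    exact monic_geom_sum_X (by rw [mem_Icc] at hi; omega)

lemma gauss_eq (n k : ℕ) (h : k ≤ n) : gauss n k = gb X n k := by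
  unfold gauss
  rw [← fac_eq n k h]
  exact mul_divByMonic_cancel_left _ (fac_monic n k)

/-- The division in the definition of `gauss` is exact. -/
lemma gauss_mul_eq (n k : ℕ) (h : k ≤ n) :
    ((∏ s ∈ Icc 1 k, qNum s) * ∏ t ∈ Icc 1 (n - k), qNum t) * gauss n k
      = ∏ r ∈ Icc 1 n, qNum r := by
  rw [gauss_eq n k h, fac_eq n k h]

/-- **Answer to Q1.** `S_{a,m}(q) ≡ 0 (mod [5^a]_q^2)` for all positive integers `a, m`. -/
theorem result : ∀ a m : ℕ, 1 ≤ a → 1 ≤ m → CongrZero (S a m) (qNum (5 ^ a) ^ 2) := by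
  intro a m ha hm
  obtain ⟨a', rfl⟩ : ∃ a', a = a' + 1 := ⟨a - 1, by omega⟩
  set J := 5 ^ a' * m with hJ
  have hJpos : 0 < J := by positivity
  have hn : 5 ^ (a' + 1) * m = 5 * J := by rw [hJ, pow_succ]; ring
  have hroot : ∀ z : ℂ, z ^ (5 ^ (a' + 1)) = 1 → z ≠ 1 → ∀ c : ℕ, 0 < c → c < 5 →
      (X - C z) ^ 2 ∣ Wt J c := by
    intro z hz1 hz2 c hc hc5
    have hdvd : orderOf z ∣ 5 ^ (a' + 1) := orderOf_dvd_of_pow_eq_one hz1
    obtain ⟨i, hi, hoi⟩ := (Nat.dvd_prime_pow (by norm_num)).mp hdvd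
    have hi0 : i ≠ 0 := by
      rintro rfl
      rw [pow_zero, orderOf_eq_one_iff] at hoi
      exact hz2 hoi
    obtain ⟨i', rfl⟩ : ∃ i', i = i' + 1 := ⟨i - 1, by omega⟩
    have hprim : IsPrimitiveRoot z (5 * 5 ^ i') := by
      have := IsPrimitiveRoot.orderOf z
      rw [hoi, pow_succ, mul_comm] at this
      exact this
    have hJe : J = 5 ^ i' * (5 ^ (a' - i') * m) := by
      rw [hJ, ← mul_assoc, ← pow_add]; congr 2; omega
    rw [hJe]
    apply Wt_sq_dvd _ _ (by positivity) (by positivity) _ hprim c hc hc5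
    rw [← pow_succ']
    exact Odd.pow (by decide)
  have hA : qNum (5 ^ (a' + 1)) ^ 2 ∣ At (X : ℤ[X]) J (5 * J) := by
    apply dvd_of_roots _ (by positivity)
    intro z hz1 hz2
    have : (At (X : ℤ[X]) J (5 * J)).map (Int.castRingHom ℂ) = At (X : ℂ[X]) J (5 * J) := by
      have := map_At (Polynomial.mapRingHom (Int.castRingHom ℂ)) (X : ℤ[X]) J (5 * J)
      simpa using this
    rw [this, At_eq_Wt]
    exact hroot z hz1 hz2 1 (by norm_num) (by norm_num)
  have hB : qNum (5 ^ (a' + 1)) ^ 2 ∣ Bt (X : ℤ[X]) J (5 * J) := by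
    apply dvd_of_roots _ (by positivity)
    intro z hz1 hz2
    have : (Bt (X : ℤ[X]) J (5 * J)).map (Int.castRingHom ℂ) = Bt (X : ℂ[X]) J (5 * J) := by
      have := map_Bt (Polynomial.mapRingHom (Int.castRingHom ℂ)) (X : ℤ[X]) J (5 * J)
      simpa using this
    rw [this, Bt_eq_Wt]
    exact hroot z hz1 hz2 2 (by norm_num) (by norm_num)
  have hL := laurent_identity J (5 * J) le_rfl
  refine ⟨(2 * (5 * J) - 1) * (5 * J + 1), PP J (5 * J), ?_, ?_⟩
  · rw [← hL]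
    unfold S
    rw [hn]
    congr 1
    · congr 1
      have : 1 ≤ 2 * (5 * J) := by omega
      push_cast [Nat.cast_sub this]
      ring
    · apply Finset.sum_congr rfl
      intro k _
      rw [gauss_eq (2 * k) k (by omega)]
  · unfold PP
    apply dvd_sub
    · exact Dvd.dvd.mul_right hA _
    · rw [mul_assoc]
      exact Dvd.dvd.mul_left (Dvd.dvd.mul_right hB _) _

end Pool.Agent.Results.MP_5b3c88_nt.SchurFib
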